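import Pool.Agent.Q116.FF.Hf
import Pool.Agent.H160R2.HF.Final

/-!
# `1/2`-flow-pairs of dense graphs

Every bridgeless graph (loops and parallel edges allowed) in which any seven vertices contain two
adjacent ones, or with `n ≥ 648` vertices each of which has more than `n/18 - 1` neighbours, or with
eight vertices meeting all edges other than loops, or with at most sixteen vertices of odd degree,
has a `1/2`-flow-pair.  If it has no cuts of size two, then it has a nowhere-zero 4-flow, or an edge
`e` such that `G - e` has a nowhere-zero 4-flow.

Proof.  Circuits of length at most four can be contracted without losing the nonexistence of a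
nowhere-zero 4-flow, and in each of the four cases all quotients without such circuits have at most
sixteen vertices of odd degree.  So by the theorem of the starting files on such graphs
(`TH362.TF.main16`) `G` has a nowhere-zero 4-flow or a Petersen quotient.  In the second case let `e`
be an edge of the Petersen quotient and let `G_k` be the graph which arises by contracting the
complement of a class `k`.  A quotient of `G_k - e` without circuits of length at most four gives,
together with the nine other classes, such a quotient of `G`; hence it has at most nine vertices of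
odd degree, too few for a Petersen quotient.  So `G_k - e` has a nowhere-zero 4-flow if `G` has no
cuts of size two, and the ten flows are put together along a flow of the Petersen graph whose only
zero is `e`.  Then the starting theorem on 4-flows with at most one zero (`H179R3.HF.nearlyK'`)
applies.  Cuts of size two are contracted one after the other.
-/

set_option autoImplicit false

open Finset Pool.Agent.H160R2.HF

namespace Pool.Agent.Results.MP_e59a69_co.DenseGraphs

/-- (a) any seven vertices contain two different adjacent ones, or (b) the number `n` of vertices is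
at least 648 and `n < 18 (d + 1)` for the number `d` of neighbours of each vertex, or (c) there are
eight vertices such that each edge which is not a loop has an end among them, or (d) at most sixteen
vertices have odd degree. -/
def Dense {V E : Type} [Fintype V] [Fintype E] [DecidableEq V] [DecidableEq E] (G : OrGraph V E) :
    Prop :=
  (∀ I : Finset V, 7 ≤ I.card → ∃ e, G.t e ∈ I ∧ G.h e ∈ I ∧ G.t e ≠ G.h e) ∨
    (648 ≤ Fintype.card V ∧ ∀ v, Fintype.card V < 18 * ((univ.filter (fun u => u ≠ v ∧
      ∃ e, (G.t e = v ∧ G.h e = u) ∨ (G.t e = u ∧ G.h e = v))).card + 1)) ∨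
    (∃ C : Finset V, C.card ≤ 8 ∧ ∀ e, G.t e ≠ G.h e → G.t e ∈ C ∨ G.h e ∈ C) ∨
    (univ.filter (fun v => Odd (G.deg univ v))).card ≤ 16

/-- Every bridgeless graph `G` with `Dense G` has a `1/2`-flow-pair. If `G` has no edge cut of size
two, then `G`, or `G - e` for some edge `e`, has a nowhere-zero flow over the group of order four
and exponent two (`f g = 0` only for `g = e`). -/
theorem result : ∀ (V E : Type) [Fintype V] [Fintype E] [DecidableEq V] [DecidableEq E]
    (G : OrGraph V E), G.Bridgeless → Dense G →
    (∃ φ₂ φ₄ : E → ℤ, G.IsHalfFlowPair φ₂ φ₄) ∧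
    ((∀ X : Finset V, (G.cut X).card ≠ 2) →
      ∃ f : E → ZMod 2 × ZMod 2, (∀ g g', f g = 0 → f g' = 0 → g = g') ∧
        ∀ v, (∑ g with G.t g = v, f g) + ∑ g with G.h g = v, f g = 0) := by
  intro V E _ _ _ _ G hb hD
  have hn1 := Q116.FF.n1_conv (s := G.t) (t := G.h) (fun Z => G.cut_card_ne_one hb Z)
  have hdd : Q116.FF.DD G.t G.h (univ : Finset E) := Q116.FF.dd_conv hn1 hD
  refine ⟨Q116.FF.pair_of_dd G.t G.h hdd, fun h2 => ?_⟩
  have h2' : ∀ x, (Pool.Agent.TH362.TF.cut G.t G.h (univ : Finset E) x).card ≠ 2 := by
    intro x
    have h3 : Pool.Agent.TH362.TF.cut G.t G.h (univ : Finset E) x =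
        G.cut (univ.filter (fun v => x v = true)) := by
      unfold Pool.Agent.TH362.TF.cut OrGraph.cut
      ext e
      simp only [mem_filter, mem_univ, true_and]
      cases x (G.t e) <;> cases x (G.h e) <;> simp
    rw [h3]
    exact h2 _
  rcases Q116.FF.near hdd h2' with ⟨φ, p1, p2⟩ | ⟨e0, _, φ, p1, p2⟩
  · refine ⟨φ, fun g g' hg => absurd hg (p1 g (mem_univ g)), fun v => ?_⟩
    have h4 := p2 v
    unfold Pool.Agent.TH362.TF.Cons at h4
    rw [sum_add_distrib, ← sum_filter, ← sum_filter] at h4
    exact h4
  · have key : ∀ g, (if g = e0 then (0 : ZMod 2 × ZMod 2) else φ g) = 0 → g = e0 := by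
      intro g hg
      by_contra hne
      rw [if_neg hne] at hg
      exact p1 g (mem_erase.2 ⟨hne, mem_univ g⟩) hg
    refine ⟨fun g => if g = e0 then 0 else φ g, fun g g' hg hg' => by
      rw [key g hg, key g' hg'], fun v => ?_⟩
    have h3 := p2 v
    unfold Pool.Agent.TH362.TF.Cons at h3
    rw [sum_filter, sum_filter, ← sum_add_distrib, ← add_sum_erase univ _ (mem_univ e0)]
    have h4 : ((if G.t e0 = v then (if e0 = e0 then (0 : ZMod 2 × ZMod 2) else φ e0) else 0) +
        (if G.h e0 = v then (if e0 = e0 then (0 : ZMod 2 × ZMod 2) else φ e0) else 0)) = 0 := by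
      simp
    refine (congrArg₂ (· + ·) h4 ?_).trans (zero_add 0)
    refine Eq.trans ?_ h3
    refine sum_congr rfl fun e he1 => ?_
    simp only [if_neg (mem_erase.1 he1).1]

end Pool.Agent.Results.MP_e59a69_co.DenseGraphs
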