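import Pool.Agent.H185D.AsmC
import Pool.Agent.Q164.HD.Orb

/-!
# `1/2`-flow-pairs of cubic graphs with dense orbits and large girth (MP_e59a69_co)

Let `ρ ≥ 0`. A connected cubic graph has `ρ`-dense orbits if every vertex is within distance `ρ` of
every orbit of the automorphism group; for `ρ = 0` these are the vertex-transitive graphs, and
graphs with at most `ρ + 1` orbits have `ρ`-dense orbits.

Proof. The cyclic edge connectivity is at least `girth / 4 ^ (ρ + 1)`: for a smallest set `X` with
the least number `c` of leaving edges among the sets with circuits on both sides, the images of `X`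
under automorphisms are equal to `X` or disjoint from it (submodularity and posimodularity of edge
cuts, and a set of `m` vertices without circuits has at least `m + 2` leaving edges), so all vertices
of `X` in the orbit of a boundary vertex are boundary vertices; hence the boundary vertices are
`ρ`-dense in `X`, and `X` has at most `4 ^ ρ * c` vertices. Then the theorem on cyclic connectivity
against the logarithm of the oddness (starting files) applies.
-/

set_option autoImplicit false

universe u v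

namespace Pool.Agent.Results.MP_e59a69_co.DenseOrbits
open Finset Pool.Agent.H160R2.HF Pool.Agent.H185C Pool.Agent.Q164.HD

variable {V : Type u} {E : Type v} [Fintype V] [Fintype E] [DecidableEq V] [DecidableEq E]

/-- any two vertices are joined by a walk (`Near G r x y`: a walk of length at most `r`) -/
def IsConn (G : OrGraph V E) : Prop := ∀ x y, ∃ r, Near G r x y

/-- every vertex `y` is within distance `ρ` of the orbit of every vertex `x`: some automorphism
`(σ, τ)` moves `x` to a vertex at distance at most `ρ` from `y` -/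
def IsDense (G : OrGraph V E) (ρ : ℕ) : Prop :=
  ∀ x y, ∃ σ τ, IsAut G σ τ ∧ Near G ρ (σ x) y

/-- every circuit (every nonempty edge set with all degrees even) has at least `g` edges -/
def GirthAtLeast (G : OrGraph V E) (g : ℝ) : Prop :=
  ∀ C : Finset E, C.Nonempty → (∀ v, Even (G.deg C v)) → g ≤ C.card

theorem oddCount_le (G : OrGraph V E) (F : Finset E) : G.oddCount F ≤ Fintype.card V := by
  classical
  unfold OrGraph.oddCount
  have h1 : Set.ncard {c : (G.sub F).ConnectedComponent | Odd c.supp.ncard} ≤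
      Nat.card (G.sub F).ConnectedComponent := by
    rw [← Set.ncard_univ]
    exact Set.ncard_le_ncard (Set.subset_univ _) (Set.toFinite _)
  have h2 : Nat.card (G.sub F).ConnectedComponent ≤ Nat.card V :=
    Nat.card_le_card_of_surjective (G.sub F).connectedComponentMk
      (fun c => c.exists_rep)
  rw [Nat.card_eq_fintype_card (α := V)] at h2
  exact h1.trans h2

/-- **Theorem.** 1. There is `k₀` such that for all `ρ` and all `k ≥ k₀`: a connected cubic graph with
`ρ`-dense orbits and girth at least `4 ^ (ρ + 1) * k` has a 2-factor, and every 2-factor `F` whose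
number `w` of odd circuits satisfies `w ^ 16 ≤ k ^ k` is the set of nonzero edges of the 2-flow of a
`1/2`-flow-pair.

2. For all `ρ` and `ε > 0` there is `n₀` such that every connected cubic graph with `ρ`-dense orbits,
`n ≥ n₀` vertices and girth at least `ε log n` has a `1/2`-flow-pair; the nonzero edges of its 2-flow
can be prescribed to be any given 2-factor. -/
theorem result :
    (∃ k₀ : ℕ, ∀ ρ k : ℕ, k₀ ≤ k → ∀ (V : Type u) (E : Type v) [Fintype V] [Fintype E]
      [DecidableEq V] [DecidableEq E] (G : OrGraph V E), G.Cubic → IsConn G → IsDense G ρ →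
      GirthAtLeast G (4 ^ (ρ + 1) * k) →
      (∃ F : Finset E, G.IsTwoFactor F) ∧
      ∀ F : Finset E, G.IsTwoFactor F → G.oddCount F ^ 16 ≤ k ^ k →
        ∃ φ₂ φ₄ : E → ℤ, G.IsHalfFlowPair φ₂ φ₄ ∧ ∀ e, φ₂ e ≠ 0 ↔ e ∈ F) ∧
    (∀ (ρ : ℕ) (ε : ℝ), 0 < ε → ∃ n₀ : ℕ, ∀ (V : Type u) (E : Type v) [Fintype V] [Fintype E]
      [DecidableEq V] [DecidableEq E] (G : OrGraph V E), G.Cubic → IsConn G → IsDense G ρ →
      n₀ ≤ Fintype.card V → GirthAtLeast G (ε * Real.log (Fintype.card V)) →
      (∃ F : Finset E, G.IsTwoFactor F) ∧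
      ∀ F : Finset E, G.IsTwoFactor F →
        ∃ φ₂ φ₄ : E → ℤ, G.IsHalfFlowPair φ₂ φ₄ ∧ ∀ e, φ₂ e ≠ 0 ↔ e ∈ F) := by
  obtain ⟨k₀, hk₀⟩ := Pool.Agent.H185D.main2.{u, v}
  have key : ∀ ρ k : ℕ, k₀ ≤ k → ∀ (V : Type u) (E : Type v) [Fintype V] [Fintype E]
      [DecidableEq V] [DecidableEq E] (G : OrGraph V E), G.Cubic → IsConn G → IsDense G ρ →
      GirthAtLeast G (4 ^ (ρ + 1) * k) →
      (∃ F : Finset E, G.IsTwoFactor F) ∧
      ∀ F : Finset E, G.IsTwoFactor F → G.oddCount F ^ 16 ≤ k ^ k →
        ∃ φ₂ φ₄ : E → ℤ, G.IsHalfFlowPair φ₂ φ₄ ∧ ∀ e, φ₂ e ≠ 0 ↔ e ∈ F := by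
    intro ρ k hk V E _ _ _ _ G hc hconn hd hg
    refine hk₀ k hk V E G hc (cycConn G hc ρ k hconn hd ?_)
    intro C h1 h2
    have := hg C h1 h2
    exact_mod_cast this
  refine ⟨⟨k₀, key⟩, ?_⟩
  intro ρ ε hε
  set a : ℝ := ε / (2 * 4 ^ (ρ + 1)) with ha
  have ha0 : 0 < a := by positivity
  set M : ℝ := max (max (1 / a) ((k₀ : ℝ) / a)) (Real.exp (16 / a) / a) with hM
  refine ⟨⌈Real.exp M⌉₊, ?_⟩
  intro V E _ _ _ _ G hc hconn hd hn hg
  set L := Real.log (Fintype.card V) with hL
  have hexp : Real.exp M ≤ Fintype.card V := (Nat.le_ceil _).trans (by exact_mod_cast hn)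
  have hVpos : (0 : ℝ) < Fintype.card V := (Real.exp_pos _).trans_le hexp
  have hML : M ≤ L := by rw [hL, Real.le_log_iff_exp_le hVpos]; exact hexp
  have h1 : 1 ≤ a * L := by
    have : 1 / a ≤ L := ((le_max_left _ _).trans (le_max_left _ _)).trans hML
    rwa [div_le_iff₀ ha0, mul_comm] at this
  have h2 : (k₀ : ℝ) ≤ a * L := by
    have : (k₀ : ℝ) / a ≤ L := ((le_max_right _ _).trans (le_max_left _ _)).trans hML
    rwa [div_le_iff₀ ha0, mul_comm] at this
  have h3 : Real.exp (16 / a) ≤ a * L := by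
    have : Real.exp (16 / a) / a ≤ L := (le_max_right _ _).trans hML
    rwa [div_le_iff₀ ha0, mul_comm] at this
  have hL0 : 0 ≤ L := by
    by_contra h
    push Not at h
    nlinarith
  set k : ℕ := ⌊2 * a * L⌋₊ with hk
  have hk1 : a * L ≤ k := by
    have := Nat.lt_floor_add_one (2 * a * L)
    rw [← hk] at this
    linarith
  have hk2 : (k : ℝ) ≤ 2 * a * L := Nat.floor_le (by positivity)
  have hkk : k₀ ≤ k := by
    have : (k₀ : ℝ) ≤ k := h2.trans hk1
    exact_mod_cast this
  have hgk : GirthAtLeast G (4 ^ (ρ + 1) * k) := by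
    intro C hC1 hC2
    refine le_trans ?_ (hg C hC1 hC2)
    have h4 : (4 : ℝ) ^ (ρ + 1) * (2 * a * L) = ε * L := by
      rw [ha]; field_simp
    calc (4 : ℝ) ^ (ρ + 1) * k ≤ 4 ^ (ρ + 1) * (2 * a * L) :=
          mul_le_mul_of_nonneg_left hk2 (by positivity)
      _ = ε * L := h4
  obtain ⟨hF, hall⟩ := key ρ k hkk V E G hc hconn hd hgk
  refine ⟨hF, fun F hF => hall F hF ?_⟩
  have hkpos : (0 : ℝ) < k := by linarith
  have h5 : (Fintype.card V : ℝ) ^ 16 ≤ (k : ℝ) ^ k := by
    have h6 : 16 / a ≤ Real.log k := by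
      rw [Real.le_log_iff_exp_le hkpos]
      exact h3.trans hk1
    have h7 : 16 * L ≤ k * Real.log k := by
      calc 16 * L = (a * L) * (16 / a) := by field_simp
        _ ≤ k * Real.log k := mul_le_mul hk1 h6 (by positivity) hkpos.le
    have h8 : Real.exp (16 * L) ≤ Real.exp (k * Real.log k) := Real.exp_le_exp.2 h7
    have h9 : Real.exp (16 * L) = (Fintype.card V : ℝ) ^ 16 := by
      rw [hL, mul_comm, Real.exp_mul, Real.exp_log hVpos]
      norm_cast
    have h10 : Real.exp (k * Real.log k) = (k : ℝ) ^ k := by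
      rw [mul_comm, Real.exp_mul, Real.exp_log hkpos]
      norm_cast
    rw [← h9, ← h10]; exact h8
  have h6 : Fintype.card V ^ 16 ≤ k ^ k := by exact_mod_cast h5
  exact (Nat.pow_le_pow_left (oddCount_le G F) 16).trans h6

end Pool.Agent.Results.MP_e59a69_co.DenseOrbits
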