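import Pool.Agent.Q116.FF.Hf
import Pool.Agent.H160R2.HF.Final
import Pool.Agent.Q116.MM.Mat

/-!
# `1/2`-flow-pairs of graphs without nine independent edges

Every bridgeless graph (loops and parallel edges allowed) whose matching number is at most eight has
a `1/2`-flow-pair.  If it has no cuts of size two, then it has a nowhere-zero 4-flow, or an edge `e`
such that `G - e` has a nowhere-zero 4-flow.

Proof.  Circuits of length at most four can be contracted without losing the nonexistence of a
nowhere-zero 4-flow.  The matching number of the quotient `H` is at most eight, `H` has no bridges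
and no circuits of length at most four.  By the theorem of Tutte and Berge there are a set `A` of
`a ≤ 8` vertices and many odd sets of vertices which are joined only to `A`; if `H` has more than
sixteen vertices of odd degree, then at least `a + 2` of these sets consist of vertices of odd
degree, and a count gives a contradiction for each `a` (file `Q116/MM/Cnt`).  So `H` has at most
sixteen vertices of odd degree, and the theorem of the starting files on such graphs
(`TH362.TF.main16`) and the argument on Petersen quotients of `Q116/FF/Nr`, `Hf` apply.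
-/

set_option autoImplicit false

open Finset Pool.Agent.H160R2.HF

namespace Pool.Agent.Results.MP_e59a69_co.MatchingNumberEight

/-- Let `G` be a bridgeless graph such that among any nine edges other than loops there are two with
a common end. Then `G` has a `1/2`-flow-pair. If `G` has no edge cut of size two, then `G`, or
`G - e` for some edge `e`, has a nowhere-zero flow over the group of order four and exponent two
(`f g = 0` only for `g = e`). -/
theorem result : ∀ (V E : Type) [Fintype V] [Fintype E] [DecidableEq V] [DecidableEq E]
    (G : OrGraph V E), G.Bridgeless →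
    (∀ e : Fin 9 → E, (∀ i, G.t (e i) ≠ G.h (e i)) →
      ∃ i j, i ≠ j ∧ (G.t (e i) = G.t (e j) ∨ G.t (e i) = G.h (e j) ∨ G.h (e i) = G.h (e j))) →
    (∃ φ₂ φ₄ : E → ℤ, G.IsHalfFlowPair φ₂ φ₄) ∧
    ((∀ X : Finset V, (G.cut X).card ≠ 2) →
      ∃ f : E → ZMod 2 × ZMod 2, (∀ g g', f g = 0 → f g' = 0 → g = g') ∧
        ∀ v, (∑ g with G.t g = v, f g) + ∑ g with G.h g = v, f g = 0) := by
  intro V E _ _ _ _ G hb hD
  have hn1 := Q116.FF.n1_conv (s := G.t) (t := G.h) (fun Z => G.cut_card_ne_one hb Z)
  have hdd : Q116.FF.DD G.t G.h (univ : Finset E) :=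
    Q116.MM.dd_of_matching hn1 (fun M _ hM => Q116.MM.small_of hD M hM)
  refine ⟨Q116.FF.pair_of_dd G.t G.h hdd, fun h2 => ?_⟩
  have h2' : ∀ x, (Pool.Agent.TH362.TF.cut G.t G.h (univ : Finset E) x).card ≠ 2 := by
    intro x
    have h3 : Pool.Agent.TH362.TF.cut G.t G.h (univ : Finset E) x =
        G.cut (univ.filter (fun v => x v = true)) := by
      unfold Pool.Agent.TH362.TF.cut OrGraph.cut
      ext e
      simp only [mem_filter, mem_univ, true_and]
      cases x (G.t e) <;> cases x (G.h e) <;> simp
    rw [h3]
    exact h2 _
  rcases Q116.FF.near hdd h2' with ⟨φ, p1, p2⟩ | ⟨e0, _, φ, p1, p2⟩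
  · refine ⟨φ, fun g g' hg => absurd hg (p1 g (mem_univ g)), fun v => ?_⟩
    have h4 := p2 v
    unfold Pool.Agent.TH362.TF.Cons at h4
    rw [sum_add_distrib, ← sum_filter, ← sum_filter] at h4
    exact h4
  · have key : ∀ g, (if g = e0 then (0 : ZMod 2 × ZMod 2) else φ g) = 0 → g = e0 := by
      intro g hg
      by_contra hne
      rw [if_neg hne] at hg
      exact p1 g (mem_erase.2 ⟨hne, mem_univ g⟩) hg
    refine ⟨fun g => if g = e0 then 0 else φ g, fun g g' hg hg' => by
      rw [key g hg, key g' hg'], fun v => ?_⟩
    have h3 := p2 v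
    unfold Pool.Agent.TH362.TF.Cons at h3
    rw [sum_filter, sum_filter, ← sum_add_distrib, ← add_sum_erase univ _ (mem_univ e0)]
    have h4 : ((if G.t e0 = v then (if e0 = e0 then (0 : ZMod 2 × ZMod 2) else φ e0) else 0) +
        (if G.h e0 = v then (if e0 = e0 then (0 : ZMod 2 × ZMod 2) else φ e0) else 0)) = 0 := by
      simp
    refine (congrArg₂ (· + ·) h4 ?_).trans (zero_add 0)
    refine Eq.trans ?_ h3
    refine sum_congr rfl fun e he1 => ?_
    simp only [if_neg (mem_erase.1 he1).1]

end Pool.Agent.Results.MP_e59a69_co.MatchingNumberEight
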