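import Pool.Agent.Q116.FF.Hf
import Pool.Agent.H160R2.HF.Final
import Pool.Agent.Q114.TC.Dd

/-!
# `1/2`-flow-pairs of graphs most of whose edges lie in short circuits

Every bridgeless graph (loops and parallel edges allowed) in which at most 26 edges lie in no
circuit of length at most four, or in which the edges in circuits of length at most four form a
spanning subgraph with at most 17 components, and every bridgeless simple graph with `n ≥ 24`
vertices and at least `C(n-17, 2) + 37` edges has a `1/2`-flow-pair.  If it has no cuts of size two,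
then it has a nowhere-zero 4-flow, or an edge `e` such that `G - e` has a nowhere-zero 4-flow.

Proof.  In a quotient without circuits of length two, three and four the edges of short circuits
are loops.  So the quotient has at most 26 edges that are not loops and therefore at most 16
vertices of odd degree, or at most 17 vertices; if the graph is simple and the quotient has `k ≥ 18`
vertices, then it has at most `k √(k-1) / 2` edges other than loops, and at most 36 if `k = 18` and
all degrees are odd, and the remaining edges lie inside the classes.  The theorem of the starting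
files on graphs with at most sixteen vertices of odd degree (`TH362.TF.main16`) and the argument on
Petersen quotients of `Q116/FF/Nr`, `Hf` apply.
-/

set_option autoImplicit false

open Finset Pool.Agent.H160R2.HF

namespace Pool.Agent.Results.MP_e59a69_co.ShortCircuits

/-- Let `G` be a bridgeless graph such that (a) at most 26 edges lie in no circuit of length at most
four, or (b) there are at most 17 vertices such that each vertex is joined to one of them by a path
all of whose edges lie in circuits of length at most four, or (c) `G` is simple and has `n ≥ 24`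
vertices and at least `C(n-17, 2) + 37` edges. Then `G` has a `1/2`-flow-pair. If `G` has no edge
cut of size two, then `G`, or `G - e` for some edge `e`, has a nowhere-zero flow over the group of
order four and exponent two (`f g = 0` only for `g = e`). -/
theorem result : ∀ (V E : Type) [Fintype V] [Fintype E] [DecidableEq V] [DecidableEq E]
    (G : OrGraph V E), G.Bridgeless →
    ({e | ¬ Q114.TC.InShortCircuit G.t G.h e}.ncard ≤ 26 ∨
      (∃ R : Finset V, R.card ≤ 17 ∧ ∀ v, ∃ r ∈ R, Q114.TC.ShortLinked G.t G.h r v) ∨
      ((∀ e, G.t e ≠ G.h e) ∧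
        (∀ e e', (G.t e = G.t e' ∧ G.h e = G.h e') ∨ (G.t e = G.h e' ∧ G.h e = G.t e') → e = e') ∧
        24 ≤ Fintype.card V ∧ (Fintype.card V - 17).choose 2 + 37 ≤ Fintype.card E)) →
    (∃ φ₂ φ₄ : E → ℤ, G.IsHalfFlowPair φ₂ φ₄) ∧
    ((∀ X : Finset V, (G.cut X).card ≠ 2) →
      ∃ f : E → ZMod 2 × ZMod 2, (∀ g g', f g = 0 → f g' = 0 → g = g') ∧
        ∀ v, (∑ g with G.t g = v, f g) + ∑ g with G.h g = v, f g = 0) := by
  classical
  intro V E _ _ _ _ G hb h
  have hn1 := Q116.FF.n1_conv (s := G.t) (t := G.h) (fun Z => G.cut_card_ne_one hb Z)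
  have hdd : Q116.FF.DD G.t G.h (univ : Finset E) := by
    rcases h with h | ⟨R, hR, h⟩ | ⟨hl, hp, hn, hE⟩
    · refine Q114.TC.dd_of_short (fun e => mem_univ e) hn1
        (univ.filter (fun e => ¬ Q114.TC.InShortCircuit G.t G.h e)) ?_ (fun e he => ?_)
      · rw [← Set.ncard_coe_finset]
        refine le_trans (le_of_eq ?_) h
        congr 1
        ext e; simp
      · by_contra hc
        exact he (mem_filter.2 ⟨mem_univ _, hc⟩)
    · exact Q114.TC.dd_of_parts (fun e => mem_univ e) hn1 R hR h
    · exact Q114.TC.dd_of_size hn1 hl hp hn (by rw [card_univ]; exact hE)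
  refine ⟨Q116.FF.pair_of_dd G.t G.h hdd, fun h2 => ?_⟩
  have h2' : ∀ x, (Pool.Agent.TH362.TF.cut G.t G.h (univ : Finset E) x).card ≠ 2 := by
    intro x
    have h3 : Pool.Agent.TH362.TF.cut G.t G.h (univ : Finset E) x =
        G.cut (univ.filter (fun v => x v = true)) := by
      unfold Pool.Agent.TH362.TF.cut OrGraph.cut
      ext e
      simp only [mem_filter, mem_univ, true_and]
      cases x (G.t e) <;> cases x (G.h e) <;> simp
    rw [h3]
    exact h2 _
  rcases Q116.FF.near hdd h2' with ⟨φ, p1, p2⟩ | ⟨e0, _, φ, p1, p2⟩
  · refine ⟨φ, fun g g' hg => absurd hg (p1 g (mem_univ g)), fun v => ?_⟩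
    have h4 := p2 v
    unfold Pool.Agent.TH362.TF.Cons at h4
    rw [sum_add_distrib, ← sum_filter, ← sum_filter] at h4
    exact h4
  · have key : ∀ g, (if g = e0 then (0 : ZMod 2 × ZMod 2) else φ g) = 0 → g = e0 := by
      intro g hg
      by_contra hne
      rw [if_neg hne] at hg
      exact p1 g (mem_erase.2 ⟨hne, mem_univ g⟩) hg
    refine ⟨fun g => if g = e0 then 0 else φ g, fun g g' hg hg' => by
      rw [key g hg, key g' hg'], fun v => ?_⟩
    have h3 := p2 v
    unfold Pool.Agent.TH362.TF.Cons at h3
    rw [sum_filter, sum_filter, ← sum_add_distrib, ← add_sum_erase univ _ (mem_univ e0)]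
    have h4 : ((if G.t e0 = v then (if e0 = e0 then (0 : ZMod 2 × ZMod 2) else φ e0) else 0) +
        (if G.h e0 = v then (if e0 = e0 then (0 : ZMod 2 × ZMod 2) else φ e0) else 0)) = 0 := by
      simp
    refine (congrArg₂ (· + ·) h4 ?_).trans (zero_add 0)
    refine Eq.trans ?_ h3
    refine sum_congr rfl fun e he1 => ?_
    simp only [if_neg (mem_erase.1 he1).1]

end Pool.Agent.Results.MP_e59a69_co.ShortCircuits
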